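import Pool.Agent.Helper5.UN.Goals
import Pool.Agent.Helper29.BL.ADD
import Pool.Agent.Helper18.RO.HVAL

/-!
# Project UN (MP_a41896_nt), packet VAL
-/

set_option autoImplicit false

namespace Pool.Agent.Helper22.UN

open WeierstrassCurve Height Height.AdmissibleAbsValues MvPolynomial
open Pool.Agent.Helper29.BL Pool.Agent.Helper5.RO Pool.Agent.Helper5.UN

noncomputable section

theorem xRep_neg' {F : Type} [Field F] {W : Affine F} (P : W.Point) : (-P).xRep = P.xRep := by
  rcases P with _ | ⟨x, y, h⟩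
  · rfl
  · rfl

theorem asm_sy {K F : Type} [Field K] [Field F] [DecidableEq F] (φ : K →+* F) (W : Affine K)
    [W.IsElliptic] (P Q : (W.map φ : Affine F).Point) :
    ∃ c : F, c ≠ 0 ∧ ∀ j, asm φ W (sy P.xRep Q.xRep) j = c * sy (P + Q).xRep (P - Q).xRep j := by
  obtain ⟨c, hc, h⟩ := addSub_correct add dbl xeq F (W.map φ) P Q
  refine ⟨c, hc, fun j => ?_⟩
  rw [Helper18.RO.asm_eval]
  have h4 := congrFun h j
  change MvPolynomial.eval _ (addSubMap (W.map φ) j) = _ at h4
  exact h4

theorem asm_sy_smul {K F : Type} [Field K] [Field F] (φ : K →+* F) (W : WeierstrassCurve K)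
    (s t : F) (P Q : Fin 2 → F) (j : Fin 3) :
    asm φ W (sy (s • P) (t • Q)) j = (s * t) ^ 2 * asm φ W (sy P Q) j := by
  have h : sy (s • P) (t • Q) = fun i => (s * t) * sy P Q i := by
    funext i
    fin_cases i <;> simp [sy] <;> ring
  rw [h, Helper18.RO.asm_smul]

theorem vec_sg {n : ℕ} (m : Fin n → ℤ) (h : ∀ i, |m i| ≤ 1) : vec (sg m) = m := by
  funext i
  have hi := abs_le.mp (h i)
  unfold vec Helper5.UN.sg
  have h3 : m i = -1 ∨ m i = 0 ∨ m i = 1 := by omega
  rcases h3 with h3 | h3 | h3 <;> rw [h3] <;> rfl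

theorem gVAL : G_VAL := by
  intro K F _ _ _ φ W _ W' hW' n a ζ z hT k
  subst hW'
  induction k with
  | zero =>
    intro m hm
    obtain ⟨σ, hσ, h⟩ := hT (sg m)
    refine ⟨σ, hσ, ?_⟩
    rw [vec_sg m (by simpa using hm)] at h
    exact h
  | succ k ih =>
    intro m hm
    obtain ⟨σ₁, hσ₁, h₁⟩ := ih (fun i => m i / 2) (fun i => by
      have := abs_le.mp (hm i)
      rw [pow_succ] at this
      rw [abs_le]
      constructor <;> omega)
    obtain ⟨σ₂, hσ₂, h₂⟩ := ih (fun i => m i - m i / 2) (fun i => by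
      have := abs_le.mp (hm i)
      rw [pow_succ] at this
      rw [abs_le]
      constructor <;> omega)
    obtain ⟨κ, hκ, h₃⟩ := hT (sg fun i => m i - m i / 2 - m i / 2)
    rw [vec_sg _ (fun i => by rw [abs_le]; constructor <;> omega)] at h₃
    set e : EE n := sg fun i => m i - m i / 2 - m i / 2 with he
    set P := vz (fun i => m i / 2) z with hP
    set Q := vz (fun i => m i - m i / 2) z with hQ
    set R := vz (fun i => m i - m i / 2 - m i / 2) z with hR
    have hadd : P + Q = vz m z := by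
      rw [hP, hQ]
      unfold vz
      rw [← Finset.sum_add_distrib]
      refine Finset.sum_congr rfl fun i _ => ?_
      rw [← add_smul]
      congr 1
      ring
    have hsub : P - Q = -R := by
      rw [hP, hQ, hR]
      unfold vz
      rw [← Finset.sum_sub_distrib, ← Finset.sum_neg_distrib]
      refine Finset.sum_congr rfl fun i _ => ?_
      rw [← sub_smul, ← neg_smul]
      congr 1
      ring
    obtain ⟨c, hc, h₄⟩ := asm_sy φ W P Q
    rw [hadd, hsub, xRep_neg'] at h₄
    have hR' : R.xRep = κ⁻¹ • pr a ζ e := by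
      rw [h₃, smul_smul, inv_mul_cancel₀ hκ, one_smul]
    have h₅ : ∀ j, asm φ W (sy (rp φ W a ζ k fun i => m i / 2)
        (rp φ W a ζ k fun i => m i - m i / 2)) j =
        (σ₁ * σ₂) ^ 2 * c * κ⁻¹ * sy (vz m z).xRep (pr a ζ e) j := by
      intro j
      rw [h₁, h₂, asm_sy_smul, h₄, hR']
      fin_cases j <;> simp [sy] <;> ring
    refine ⟨(σ₁ * σ₂) ^ 2 * c * κ⁻¹, by positivity, ?_⟩
    change dad φ W _ _ (a e) (pr a ζ e) = _
    set lam := (σ₁ * σ₂) ^ 2 * c * κ⁻¹ with hlam
    unfold dad
    cases hb : a e with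
    | true =>
      simp only [if_true, h₅]
      have hpr : pr a ζ e = ![ζ e, 1] := by
        unfold pr
        rw [hb]
        rfl
      rw [hpr]
      funext i
      fin_cases i <;> simp [sy] <;> ring
    | false =>
      simp only [Bool.false_eq_true, if_false, h₅]
      have hpr : pr a ζ e = ![1, ζ e] := by
        unfold pr
        rw [hb]
        rfl
      rw [hpr]
      funext i
      fin_cases i <;> simp [sy] <;> ring

end

end Pool.Agent.Helper22.UN
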